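import Pool.Agent.Helper65.KPV.St

/-! Project KP (MP_26be5b_ag, owners helper52, helper65), module BAA: the algebra `B` is graded. -/

set_option autoImplicit false

namespace Pool.Agent.Helper7.KPV

open Pool.Agent.Helper65.KPV Pool.Agent.Helper5.KPA Pool.Agent.Helper52.KP

private lemma indep {C : Cone} (hC : Good C) {r : ℕ} (hr : 0 < r) (hVAN : StVAN) (n : ℕ)
    (z : ℕ → MvPolynomial (Fin C.m) ℂ) (hz : ∀ j, z j ∈ C.R (C.n * r * j))
    (h0 : ∑ j ∈ Finset.range n, z j = 0) : ∀ j, j < n → z j = 0 := by
  intro j hj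
  refine MvPolynomial.funext fun y => ?_
  rw [map_zero]
  have h := hVAN ℂ ⊥ n (fun l => ev (z l) y) (fun c hc => ?_) j hj
  · exact (Submodule.mem_bot ℂ).1 h
  · have hd : 0 < C.n * r := Nat.mul_pos hC.hn hr
    obtain ⟨c₁, hc₁⟩ := IsAlgClosed.exists_pow_nat_eq c hd
    rw [Submodule.mem_bot]
    have e1 : ∀ l, c ^ l • ev (z l) y = ev (z l) (scl C.w c₁ y) := fun l => by
      rw [hC.hom _ _ (hz l), smul_eq_mul, ← hc₁, ← pow_mul]
    rw [Finset.sum_congr rfl fun l _ => e1 l]
    have e2 : ∑ l ∈ Finset.range n, ev (z l) (scl C.w c₁ y) =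
        MvPolynomial.eval (scl C.w c₁ y) (∑ l ∈ Finset.range n, z l) := by
      rw [map_sum]
    rw [e2, h0, map_zero]

theorem hBAA (hAGR : StAGR) (hVAN : StVAN) : StBAA := by
  intro C hC r F hF
  obtain ⟨hG, -, -, -⟩ := hAGR C hC r F hF
  have hanti : ∀ k, Antitone (F k) := fun k => antitone_nat_of_succ_le (hF.anti k)
  have hle : ∀ k l, F k l ≤ C.R (C.n * r * k) := fun k l => by
    rw [← hF.zero k]
    exact hanti k (Nat.zero_le l)
  have hgen : ∀ k l f, f ∈ F k l → Polynomial.C f * Polynomial.X ^ l ∈ BB F k := by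
    intro k l f hf l'
    rw [Polynomial.coeff_C_mul_X_pow]
    split_ifs with h
    · rw [h]
      exact hf
    · exact Submodule.zero_mem _
  have h1 : Subalgebra.toSubmodule (BA F) = (⨆ k, BB F k) := by
    refine le_antisymm ?_ ?_
    · set W : Submodule ℂ (QQ C.m) := ⨆ k, BB F k with hW
      have hone : (1 : QQ C.m) ∈ W := by
        refine Submodule.mem_iSup_of_mem 0 ?_
        rw [hG.zero]
        exact Submodule.subset_span rfl
      have hmul : ∀ x y : QQ C.m, x ∈ W → y ∈ W → x * y ∈ W := by
        intro x y hx hy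
        have h2 : x * y ∈ W * W := Submodule.mul_mem_mul hx hy
        have h3 : W * W ≤ W := by
          nth_rewrite 1 [hW]
          rw [Submodule.iSup_mul]
          refine iSup_le fun i => ?_
          rw [hW, Submodule.mul_iSup]
          refine iSup_le fun j => ?_
          refine Submodule.mul_le.2 fun a ha b hb => ?_
          exact Submodule.mem_iSup_of_mem (i + j) (hG.mul i j a b ha hb)
        exact h3 h2
      have h4 : BA F ≤ W.toSubalgebra hone hmul := by
        refine Algebra.adjoin_le ?_
        rintro b ⟨k, l, f, hf, rfl⟩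
        exact Submodule.mem_iSup_of_mem k (hgen k l f hf)
      intro x hx
      exact h4 hx
    · refine iSup_le fun k x hx => ?_
      rw [Subalgebra.mem_toSubmodule, x.as_sum_range_C_mul_X_pow]
      refine Subalgebra.sum_mem _ fun l _ => ?_
      exact Algebra.subset_adjoin ⟨k, l, x.coeff l, hx l, rfl⟩
  have h3 : ∀ k, ∀ x ∈ QR C (C.n * r * k), x ∈ BA F → x ∈ BB F k := by
    intro k x hx hxB
    have h4 : x ∈ ⨆ k, BB F k := by
      rw [← h1]
      exact hxB
    obtain ⟨f, hf, hfx⟩ := (Submodule.mem_iSup_iff_exists_finsupp _ _).1 h4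
    intro l
    set n : ℕ := max (f.support.sup id) k + 1 with hn
    have hkn : k < n := by
      have := le_max_right (f.support.sup id) k
      omega
    have hsub : f.support ⊆ Finset.range n := by
      intro j hj
      rw [Finset.mem_range]
      have h5 : j ≤ f.support.sup id := Finset.le_sup (f := id) hj
      have := le_max_left (f.support.sup id) k
      omega
    have hsum : ∑ j ∈ Finset.range n, f j = x := by
      rw [← hfx]
      refine (Finset.sum_subset hsub fun j _ hj => ?_).symm
      exact Finsupp.notMem_support_iff.1 hj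
    have h6 := indep hC hF.hr hVAN n
      (fun j => (f j).coeff l - if j = k then x.coeff l else 0) (fun j => ?_) ?_ k hkn
    · simp only [if_true] at h6
      rw [← sub_eq_zero.1 h6]
      exact hf k l
    · refine Submodule.sub_mem _ (hle j l (hf j l)) ?_
      split_ifs with h
      · rw [h]
        exact hx l
      · exact Submodule.zero_mem _
    · rw [Finset.sum_sub_distrib, Finset.sum_ite_eq' (Finset.range n) k,
        if_pos (Finset.mem_range.2 hkn), ← Polynomial.finset_sum_coeff, hsum, sub_self]
  have h5 : (Polynomial.X : QQ C.m) ∈ QR C (C.n * r * 0) := by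
    intro l
    rw [Polynomial.coeff_X]
    split_ifs
    · rw [Nat.mul_zero]
      exact hC.one
    · exact Submodule.zero_mem _
  refine ⟨h1, h3, fun k x hx l => hle k l (hx l), fun hX => ?_, h5, fun k f hf l => ?_⟩
  · have h6 := h3 0 _ h5 hX 1
    rw [Polynomial.coeff_X_one, hF.sep0, Submodule.mem_bot] at h6
    exact one_ne_zero h6
  · rw [Polynomial.coeff_C]
    split_ifs with h
    · rw [h, hF.zero]
      exact hf
    · exact Submodule.zero_mem _

end Pool.Agent.Helper7.KPV
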